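import Pool.Agent.H95.FJ.Defs

set_option autoImplicit false

open MvPolynomial

namespace Pool.Agent.H87.FJ

open H95.FJ H95.FG H95.FI

theorem TT_apply {n s : ℕ} (T : Fin s → (Vn n →ₗ[ℂ] Vn n)) (c : Fin s → ℂ) (z : Vn n) :
    TT T c z = ∑ a, c a • T a z := by
  unfold TT
  simp [LinearMap.sum_apply]

theorem TT_mem {n s : ℕ} (T : Fin s → (Vn n →ₗ[ℂ] Vn n)) (c : Fin s → ℂ) (z : Vn n) :
    TT T c z ∈ EE T z := by
  rw [TT_apply]
  exact Submodule.sum_mem _ fun a _ =>
    Submodule.smul_mem _ _ (Submodule.subset_span ⟨a, rfl⟩)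

theorem t_OPEN (hSEML : H95.FJ.S_SEML) : H95.FJ.S_OPEN := by
  intro n s e T hle w hw c hc v
  by_contra hx
  set x := TT T c v with hxdef
  have hx0 : x ≠ 0 := by
    intro h0
    exact hx (h0 ▸ Submodule.zero_mem _)
  obtain ⟨κ, a, ha, hspan, hli⟩ := exists_linearIndependent' ℂ (fun i => T i w)
  haveI : Finite κ := Finite.of_injective a ha
  haveI : Fintype κ := Fintype.ofFinite κ
  have hcard : Fintype.card κ = e := by
    have h1 := finrank_span_eq_card hli
    rw [hspan] at h1
    have h2 : Module.finrank ℂ (EE T w) = e := le_antisymm (hle w) hw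
    unfold EE at h2
    omega
  let eq := (Fintype.equivFinOfCardEq hcard).symm
  let b : Fin e → Fin s := fun i => a (eq i)
  have hli' : LinearIndependent ℂ (fun i : Fin e => T (b i) w) :=
    hli.comp eq eq.injective
  let I : Submodule ℂ (Vn n) := Submodule.span ℂ {x}
  have hliq : LinearIndependent ℂ (fun i : Fin e => I.mkQ (T (b i) w)) := by
    refine LinearIndependent.map hli' ?_
    rw [Submodule.ker_mkQ, Submodule.disjoint_span_singleton' hx0]
    intro hmem
    apply hx
    refine Submodule.span_mono ?_ hmem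
    rintro _ ⟨i, rfl⟩
    exact ⟨b i, rfl⟩
  have hfin := hSEML n e (fun i => T (b i)) I w (w + v) hliq
  obtain ⟨t, ht⟩ := (hfin.insert 0).infinite_compl.nonempty
  rw [Set.mem_compl_iff, Set.mem_insert_iff, not_or] at ht
  obtain ⟨ht0, ht1⟩ := ht
  rw [Set.mem_setOf_eq, not_not, add_sub_cancel_left] at ht1
  set z := w + t • v with hz
  have hxz : x ∈ EE T z := by
    have h1 : TT T c z = t • x := by
      rw [hz, map_add, hc, map_smul, zero_add]
    have h2 : x = t⁻¹ • TT T c z := by
      rw [h1, smul_smul, inv_mul_cancel₀ ht0, one_smul]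
    rw [h2]
    exact Submodule.smul_mem _ _ (TT_mem T c z)
  have hliz : LinearIndependent ℂ (fun i : Fin e => T (b i) z) :=
    LinearIndependent.of_comp I.mkQ ht1
  have hxn : x ∉ Submodule.span ℂ (Set.range fun i : Fin e => T (b i) z) := by
    intro hmem
    obtain ⟨g, hg⟩ := (Submodule.mem_span_range_iff_exists_fun ℂ).1 hmem
    have h0 : I.mkQ x = 0 := by
      rw [Submodule.mkQ_apply, Submodule.Quotient.mk_eq_zero]
      exact Submodule.mem_span_singleton_self x
    rw [← hg, map_sum] at h0
    simp only [map_smul] at h0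
    have h1 := Fintype.linearIndependent_iff.1 ht1 g h0
    apply hx0
    rw [← hg]
    simp [h1]
  have hcons : LinearIndependent ℂ
      (Fin.cons x (fun i : Fin e => T (b i) z) : Fin (e + 1) → Vn n) :=
    linearIndependent_finCons.2 ⟨hliz, hxn⟩
  have hfr := finrank_span_eq_card hcons
  have hsub : Submodule.span ℂ (Set.range
      (Fin.cons x (fun i : Fin e => T (b i) z) : Fin (e + 1) → Vn n)) ≤ EE T z := by
    rw [Submodule.span_le]
    rintro _ ⟨i, rfl⟩
    refine Fin.cases ?_ (fun j => ?_) i
    · simpa using hxz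
    · simp only [Fin.cons_succ]
      exact Submodule.subset_span ⟨b j, rfl⟩
  have hmono := Submodule.finrank_mono hsub
  rw [hfr, Fintype.card_fin] at hmono
  have := hle z
  omega

end Pool.Agent.H87.FJ
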