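import Pool.Agent.H95.FJ.Defs

set_option autoImplicit false

namespace Pool.Agent.H87.FJ

open H95.FJ

theorem t_SEML (hSEMP : H95.FJ.S_SEMP) : H95.FJ.S_SEML := by
  classical
  intro n q T I w w' h
  let d := Module.finrank ℂ (Vn n ⧸ I)
  let φ : (Vn n ⧸ I) ≃ₗ[ℂ] (Fin d → ℂ) := (Module.finBasis ℂ (Vn n ⧸ I)).equivFun
  let u : Fin q → Fin d → Polynomial ℂ := fun i k =>
    Polynomial.C (φ (I.mkQ (T i w)) k) + Polynomial.X * Polynomial.C (φ (I.mkQ (T i (w' - w))) k)
  have hu : ∀ t : ℂ, (fun i (k : Fin d) => (u i k).eval t) =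
      fun i => φ (I.mkQ (T i (w + t • (w' - w)))) := by
    intro t
    funext i k
    simp only [u, Polynomial.eval_add, Polynomial.eval_mul, Polynomial.eval_C, Polynomial.eval_X,
      map_add, map_smul, Pi.add_apply, Pi.smul_apply, smul_eq_mul]
  have h0 : LinearIndependent ℂ (fun i (k : Fin d) => (u i k).eval 0) := by
    rw [hu 0]
    simp only [zero_smul, add_zero]
    exact h.map' φ.toLinearMap φ.ker
  refine (hSEMP d q u 0 h0).subset ?_
  intro t ht
  change ¬ LinearIndependent ℂ (fun i (k : Fin d) => (u i k).eval t)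
  intro h1
  apply ht
  rw [hu t] at h1
  exact LinearIndependent.of_comp φ.toLinearMap h1

end Pool.Agent.H87.FJ
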