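import Pool.Agent.H95.FJ.Defs

set_option autoImplicit false

namespace Pool.Agent.H87.FJ

open H95.FJ

/-- dual functionals of an independent family -/
theorem dualFam {n q : ℕ} (x : Fin q → Fin n → ℂ) (h : LinearIndependent ℂ x) :
    ∃ c : Fin q → Fin n → ℂ, ∀ i j, ∑ k, c j k * x i k = if i = j then 1 else 0 := by
  classical
  have hinj := Fintype.linearIndependent_iff.1 h
  let L : (Fin q → ℂ) →ₗ[ℂ] (Fin n → ℂ) := Fintype.linearCombination ℂ x
  have hk : LinearMap.ker L = ⊥ := by
    rw [LinearMap.ker_eq_bot']
    intro g hg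
    funext i
    exact hinj g (by simpa [L, Fintype.linearCombination_apply] using hg) i
  obtain ⟨g, hg⟩ := L.exists_leftInverse_of_injective hk
  have hgx : ∀ i, g (x i) = Pi.single i 1 := by
    intro i
    have h1 := LinearMap.congr_fun hg (Pi.single i 1)
    have h2 : L (Pi.single i 1) = x i := by
      simp [L, Fintype.linearCombination_apply, Pi.single_apply]
    rw [LinearMap.comp_apply, h2, LinearMap.id_apply] at h1
    exact h1
  refine ⟨fun j k => g (Pi.single k 1) j, fun i j => ?_⟩
  have h3 : x i = ∑ k, x i k • (Pi.single k 1 : Fin n → ℂ) := by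
    funext m
    simp [Finset.sum_apply, Pi.single_apply]
  have h4 : g (x i) j = ∑ k, g (Pi.single k 1) j * x i k := by
    conv_lhs => rw [h3]
    rw [map_sum, Finset.sum_apply]
    refine Finset.sum_congr rfl fun k _ => ?_
    rw [map_smul, Pi.smul_apply, smul_eq_mul, mul_comm]
  rw [← h4, hgx i, Pi.single_apply]
  simp [eq_comm]

theorem t_SEMP : H95.FJ.S_SEMP := by
  classical
  intro n q u t0 h
  obtain ⟨c, hc⟩ := dualFam _ h
  let A : Matrix (Fin q) (Fin q) (Polynomial ℂ) :=
    Matrix.of fun i j => ∑ k, Polynomial.C (c j k) * u i k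
  have hA : ∀ t, (A.map (Polynomial.evalRingHom t)) =
      Matrix.of fun i j => ∑ k, c j k * (u i k).eval t := by
    intro t
    ext i j
    simp [A, Matrix.map_apply, Polynomial.eval_finset_sum]
  have hdet : ∀ t, A.det.eval t = (Matrix.of fun i j => ∑ k, c j k * (u i k).eval t).det := by
    intro t
    rw [← hA t]
    exact RingHom.map_det (Polynomial.evalRingHom t) A
  have h1 : A.det.eval t0 = 1 := by
    rw [hdet t0]
    have : (Matrix.of fun i j => ∑ k, c j k * (u i k).eval t0 : Matrix (Fin q) (Fin q) ℂ) = 1 := by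
      ext i j
      rw [Matrix.of_apply, hc i j, Matrix.one_apply]
    rw [this, Matrix.det_one]
  have hne : A.det ≠ 0 := by
    intro h0
    rw [h0] at h1
    simp at h1
  refine (Polynomial.finite_setOf_isRoot hne).subset ?_
  intro t ht
  rw [Set.mem_setOf_eq] at ht ⊢
  by_contra hr
  apply ht
  rw [Fintype.linearIndependent_iff]
  intro g hg
  have hd : (Matrix.of fun i j => ∑ k, c j k * (u i k).eval t).det ≠ 0 := by
    rw [← hdet t]
    exact hr
  have hv : Matrix.vecMul g (Matrix.of fun i j => ∑ k, c j k * (u i k).eval t) = 0 := by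
    funext j
    simp only [Matrix.vecMul, dotProduct, Matrix.of_apply, Pi.zero_apply]
    have h5 : ∀ k, ∑ i, g i * (u i k).eval t = 0 := by
      intro k
      have := congrFun hg k
      simpa [Finset.sum_apply] using this
    calc ∑ i, g i * ∑ k, c j k * (u i k).eval t = ∑ k, c j k * ∑ i, g i * (u i k).eval t := by
          simp only [Finset.mul_sum]
          rw [Finset.sum_comm]
          refine Finset.sum_congr rfl fun k _ => Finset.sum_congr rfl fun i _ => ?_
          ring
      _ = 0 := by simp [h5]
  have := Matrix.eq_zero_of_vecMul_eq_zero hd hv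
  intro i
  exact congrFun this i

end Pool.Agent.H87.FJ
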